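import Pool.Agent.W533.PP.Stm

set_option autoImplicit false

namespace Pool.Agent.W344.PP

open Pool.Agent.W533.PP
open scoped Classical

/-- From `Fin`-valued sequences to inversion sequences. -/
noncomputable def toInv (n : ℕ) :
    {e : Fin (n+1) → Fin (n+1) // (∀ i : Fin (n+1), (e i).val ≤ i.val) ∧
        ∀ i j k : Fin (n+1), i < j → j < k →
          ¬ (e i = e k ∧ e j < e i) ∧ ¬ (e j < e k ∧ e k < e i)} ≃
      {e : Fin (n+1) → ℕ // Inv e} where
  toFun e := ⟨fun i => (e.1 i).val, ⟨e.2.1, by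
    intro i j k hij hjk h
    have h' : (e.1 j).val < (e.1 k).val ∧ (e.1 k).val ≤ (e.1 i).val := h
    obtain ⟨h1, h2⟩ := e.2.2 i j k hij hjk
    simp only [Fin.ext_iff, Fin.lt_def] at h1 h2
    rcases Nat.lt_or_ge (e.1 k).val (e.1 i).val with h3 | h3
    · exact h2 ⟨h'.1, h3⟩
    · exact h1 ⟨by omega, by omega⟩⟩⟩
  invFun e := ⟨fun i => ⟨e.1 i, lt_of_le_of_lt (e.2.1 i) i.isLt⟩, ⟨fun i => e.2.1 i, by
    intro i j k hij hjk
    have h := e.2.2 i j k hij hjk
    simp only [Fin.ext_iff, Fin.lt_def]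
    constructor
    · intro h1; exact h ⟨by omega, by omega⟩
    · intro h1; exact h ⟨h1.1, by omega⟩⟩⟩
  left_inv e := by
    apply Subtype.ext
    rfl
  right_inv e := by
    apply Subtype.ext
    rfl

theorem fin (h1 : PEQ) (h2 : PCOUNT) (h3 : ICOUNT) : FIN := by
  intro n
  cases n with
  | zero =>
    have a1 : Nat.card {σ : Equiv.Perm (Fin 0) //
        ∀ i j k l : Fin 0, i < j → j < k → k < l →
          σ j < σ i → σ i < σ l → σ l < σ k →
          ∃ m : Fin 0, j < m ∧ m < k ∧ σ i < σ m ∧ σ m < σ l} = 1 := by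
      rw [Nat.card_eq_one_iff_unique]
      exact ⟨⟨fun a b => Subtype.ext (Subsingleton.elim _ _)⟩,
        ⟨⟨Equiv.refl _, fun i => Fin.elim0 i⟩⟩⟩
    have a2 : Nat.card {e : Fin 0 → Fin 0 //
        (∀ i : Fin 0, (e i).val ≤ i.val) ∧
        ∀ i j k : Fin 0, i < j → j < k →
          ¬ (e i = e k ∧ e j < e i) ∧ ¬ (e j < e k ∧ e k < e i)} = 1 := by
      rw [Nat.card_eq_one_iff_unique]
      exact ⟨⟨fun a b => Subtype.ext (Subsingleton.elim _ _)⟩,
        ⟨⟨id, fun i => Fin.elim0 i, fun i => Fin.elim0 i⟩⟩⟩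
    rw [a1, a2]
  | succ n =>
    have b1 : Nat.card {σ : Equiv.Perm (Fin (n+1)) //
        ∀ i j k l : Fin (n+1), i < j → j < k → k < l →
          σ j < σ i → σ i < σ l → σ l < σ k →
          ∃ m : Fin (n+1), j < m ∧ m < k ∧ σ i < σ m ∧ σ m < σ l} = T n 1 1 := by
      rw [Nat.card_congr (Equiv.subtypeEquivRight (h1 (n+1))), Nat.card_eq_fintype_card,
        Fintype.card_subtype, ← h2 n]
    rw [b1, Nat.card_congr (toInv n), h3 n]

end Pool.Agent.W344.PP
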